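import Mathlib

/-!
A minimal subshift that fits inside every uniformly thickly syndetic set.
-/

set_option autoImplicit false

open Set

namespace Pool.Agent.H492Z.Blocks

/-- The word of length `n` read in `z` from position `p`. -/
def window (z : ℤ → Bool) : ℤ → ℕ → List Bool
  | _, 0 => []
  | p, n + 1 => z p :: window z (p + 1) n

@[simp] theorem window_length (z : ℤ → Bool) (n : ℕ) : ∀ p, (window z p n).length = n := by
  induction n with
  | zero => intro p; rfl
  | succ n ih => intro p; simp [window, ih]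

theorem window_append (z : ℤ → Bool) (a b : ℕ) :
    ∀ p, window z p (a + b) = window z p a ++ window z (p + a) b := by
  induction a with
  | zero => intro p; simp [window]
  | succ a ih =>
    intro p
    have e : a + 1 + b = (a + b) + 1 := by omega
    rw [e]
    simp only [window, List.cons_append]
    rw [ih]
    congr 3
    push_cast; ring

theorem window_eq_iff (z z' : ℤ → Bool) (n : ℕ) :
    ∀ p p', window z p n = window z' p' n ↔ ∀ i : ℕ, i < n → z (p + i) = z' (p' + i) := by
  induction n with
  | zero => intro p p'; simp [window]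
  | succ n ih =>
    intro p p'
    simp only [window, List.cons.injEq, ih]
    constructor
    · rintro ⟨h0, h⟩ i hi
      rcases i with _ | i
      · simpa using h0
      · have := h i (by omega)
        push_cast
        rw [show p + ((i : ℤ) + 1) = p + 1 + i by ring, show p' + ((i : ℤ) + 1) = p' + 1 + i by ring]
        exact this
    · intro h
      refine ⟨by simpa using h 0 (by omega), fun i hi => ?_⟩
      have := h (i + 1) (by omega)
      push_cast at this
      rw [show p + 1 + (i : ℤ) = p + (i + 1) by ring, show p' + 1 + (i : ℤ) = p' + (i + 1) by ring]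
      exact this

theorem infix_window {z : ℤ → Bool} {p : ℤ} {n : ℕ} {v : List Bool} (h : v <:+: window z p n) :
    ∃ q : ℤ, v = window z q v.length := by
  obtain ⟨s, t, hst⟩ := h
  have hl : n = s.length + v.length + t.length := by
    have := congrArg List.length hst
    simp at this; omega
  rw [hl, window_append, window_append] at hst
  have h1 := List.append_inj hst (by simp)
  have h2 := List.append_inj h1.1 (by simp)
  exact ⟨_, h2.2⟩

theorem window_infix (z : ℤ → Bool) {p q : ℤ} {m n : ℕ} (h1 : p ≤ q) (h2 : q + m ≤ p + n) :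
    window z q m <:+: window z p n := by
  obtain ⟨a, rfl⟩ : ∃ a : ℕ, q = p + a := ⟨(q - p).toNat, by omega⟩
  obtain ⟨c, rfl⟩ : ∃ c : ℕ, n = a + m + c := ⟨n - a - m, by omega⟩
  rw [window_append, window_append]
  exact ⟨_, _, rfl⟩

theorem isClosed_window (n : ℕ) :
    ∀ (p : ℤ) (P : List Bool → Prop), IsClosed {z : ℤ → Bool | P (window z p n)} := by
  induction n with
  | zero =>
    intro p P
    simp only [window]
    exact isClosed_const
  | succ n ih =>
    intro p P
    have e : {z : ℤ → Bool | P (window z p (n + 1))} =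
        ⋃ b : Bool, ({z : ℤ → Bool | z p = b} ∩ {z | P (b :: window z (p + 1) n)}) := by
      ext z
      simp only [window, mem_ofPred_eq, mem_iUnion, mem_inter_iff]
      constructor
      · intro h; exact ⟨z p, rfl, h⟩
      · rintro ⟨b, rfl, h⟩; exact h
    rw [e]
    refine isClosed_iUnion_of_finite fun b => IsClosed.inter ?_ (ih (p + 1) fun l => P (b :: l))
    exact isClosed_eq (continuous_apply p) continuous_const

/-- The word `u`, placed at position `p`, has its ones inside `A`. -/
def Fits (A : Set ℤ) : ℤ → List Bool → Prop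
  | _, [] => True
  | p, b :: u => (b = true → p ∈ A) ∧ Fits A (p + 1) u

theorem fits_append (A : Set ℤ) (u v : List Bool) :
    ∀ p, Fits A p u → Fits A (p + u.length) v → Fits A p (u ++ v) := by
  induction u with
  | nil => intro p _ h; simpa using h
  | cons b u ih =>
    intro p h1 h2
    refine ⟨h1.1, ih (p + 1) h1.2 ?_⟩
    have e : p + 1 + (u.length : ℤ) = p + ((b :: u).length : ℕ) := by
      simp only [List.length_cons]; push_cast; ring
    rw [e]; exact h2

theorem fits_of_subset (A : Set ℤ) (u : List Bool) :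
    ∀ p, (∀ l : ℤ, p ≤ l → l < p + u.length → l ∈ A) → Fits A p u := by
  induction u with
  | nil => intro p _; trivial
  | cons b u ih =>
    intro p h
    refine ⟨fun _ => h p le_rfl (by simp), ih (p + 1) fun l h1 h2 => h l (by omega) ?_⟩
    simp only [List.length_cons]; push_cast; omega

theorem exists_conf (A : Set ℤ) (u : List Bool) :
    ∀ p, Fits A p u → ∃ z : ℤ → Bool, window z p u.length = u ∧ ∀ t, z t = true → t ∈ A := by
  induction u with
  | nil => intro p _; exact ⟨fun _ => false, rfl, by simp⟩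
  | cons b u ih =>
    intro p h
    obtain ⟨z, hz, hA⟩ := ih (p + 1) h.2
    refine ⟨Function.update z p b, ?_, ?_⟩
    · simp only [List.length_cons, window, Function.update_self]
      congr 1
      rw [← hz, window_length, window_eq_iff]
      intro i _
      rw [Function.update_of_ne]
      omega
    · intro t ht
      by_cases htp : t = p
      · subst htp
        rw [Function.update_self] at ht
        exact h.1 ht
      · rw [Function.update_of_ne htp] at ht
        exact hA t ht

theorem infix_of_flatten (b : ℕ) (hb : 1 ≤ b) (L : List (List Bool)) :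
    (∀ w ∈ L, w.length ≤ b) → ∀ v : List Bool, v <:+: L.flatten → 2 * b ≤ v.length →
      ∃ w ∈ L, w <:+: v := by
  induction L with
  | nil =>
    intro _ v hv hl
    have := hv.length_le
    simp at this
    simp [this] at hl
    omega
  | cons w L ih =>
    intro hL v hv hl
    obtain ⟨s, t, hst⟩ := hv
    rw [List.flatten_cons, List.append_assoc] at hst
    have hw := hL w (by simp)
    rcases List.append_eq_append_iff.mp hst with ⟨a, ha1, ha2⟩ | ⟨c, hc1, hc2⟩
    · -- w = s ++ a, v ++ t = a ++ L.flatten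
      have hla : a.length ≤ b := by
        have := congrArg List.length ha1
        simp at this; omega
      rcases List.append_eq_append_iff.mp ha2 with ⟨d, hd1, hd2⟩ | ⟨d, hd1, hd2⟩
      · have := congrArg List.length hd1
        simp at this; omega
      · -- v = a ++ d, L.flatten = d ++ t
        have hld : b ≤ d.length := by
          have := congrArg List.length hd1
          simp at this; omega
        rcases L with _ | ⟨w', L'⟩
        · have := congrArg List.length hd2
          simp at this; omega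
        · refine ⟨w', by simp, ?_⟩
          have hw' := hL w' (by simp)
          rw [List.flatten_cons] at hd2
          have hp : w' <+: d :=
            List.prefix_of_prefix_length_le (l₃ := w' ++ L'.flatten) (List.prefix_append _ _)
              (hd2 ▸ List.prefix_append _ _) (by omega)
          rw [hd1]
          exact hp.isInfix.trans (List.suffix_append _ _).isInfix
    · -- s = w ++ c, L.flatten = c ++ (v ++ t)
      obtain ⟨w', hw', h⟩ := ih (fun x hx => hL x (by simp [hx])) v
        ⟨c, t, by rw [hc2, List.append_assoc]⟩ hl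
      exact ⟨w', by simp [hw'], h⟩

/-- `A` contains intervals of every length `L` within distance `R L` of every point. -/
def Good (R : ℕ → ℕ) (A : Set ℤ) : Prop :=
  ∀ (L : ℕ) (j : ℤ), ∃ i : ℤ, j - R L ≤ i ∧ i ≤ j + R L ∧ ∀ l : ℤ, i ≤ l → l < i + L → l ∈ A

/-- One level of the construction. -/
structure St (R : ℕ → ℕ) where
  a : ℕ
  W : Set (List Bool)
  pos : 1 ≤ a
  len : ∀ w ∈ W, w.length ≤ 2 * a
  fill : ∀ A, Good R A → ∀ (p : ℤ) (n : ℕ), a ≤ n → n ≤ 2 * a →
    ∃ w ∈ W, w.length = n ∧ Fits A p w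

/-- `u` is a concatenation of words of `W`. -/
def Conc (W : Set (List Bool)) (u : List Bool) : Prop :=
  ∃ L : List (List Bool), (∀ w ∈ L, w ∈ W) ∧ u = L.flatten

theorem Conc.append {W : Set (List Bool)} {u v : List Bool} (hu : Conc W u) (hv : Conc W v) :
    Conc W (u ++ v) := by
  obtain ⟨L, hL, rfl⟩ := hu
  obtain ⟨L', hL', rfl⟩ := hv
  refine ⟨L ++ L', fun w hw => ?_, by simp⟩
  rcases List.mem_append.mp hw with h | h
  · exact hL w h
  · exact hL' w h

theorem Conc.single {W : Set (List Bool)} {u : List Bool} (hu : u ∈ W) : Conc W u :=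
  ⟨[u], by simpa using hu, by simp⟩

theorem Conc.trans {W W' : Set (List Bool)} (h : ∀ w ∈ W', Conc W w) {u : List Bool}
    (hu : Conc W' u) : Conc W u := by
  obtain ⟨L, hL, rfl⟩ := hu
  induction L with
  | nil => exact ⟨[], by simp, rfl⟩
  | cons w L ih =>
    rw [List.flatten_cons]
    exact (h w (hL w (by simp))).append (ih fun x hx => hL x (by simp [hx]))

theorem St.fillAll {R : ℕ → ℕ} (s : St R) (A : Set ℤ) (hA : Good R A) (n : ℕ) :
    ∀ p : ℤ, s.a ≤ n → ∃ u, Conc s.W u ∧ u.length = n ∧ Fits A p u := by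
  induction n using Nat.strong_induction_on with
  | _ n ih =>
    intro p hn
    by_cases h : n ≤ 2 * s.a
    · obtain ⟨w, hw, hl, hf⟩ := s.fill A hA p n hn h
      exact ⟨w, Conc.single hw, hl, hf⟩
    · have hpos := s.pos
      obtain ⟨w, hw, hl, hf⟩ := s.fill A hA p s.a le_rfl (by omega)
      obtain ⟨u, hu, hul, huf⟩ := ih (n - s.a) (by omega) (p + w.length) (by omega)
      exact ⟨w ++ u, (Conc.single hw).append hu, by simp; omega, fits_append A w u p hf huf⟩

theorem St.finite {R : ℕ → ℕ} (s : St R) : s.W.Finite :=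
  (List.finite_length_le Bool (2 * s.a)).subset fun w hw => s.len w hw

theorem St.step {R : ℕ → ℕ} (s : St R) :
    ∃ s' : St R, s.a < s'.a ∧ (∀ u ∈ s'.W, Conc s.W u) ∧ ∀ u ∈ s'.W, ∀ w ∈ s.W, w <:+: u := by
  classical
  set ω : List Bool := s.finite.toFinset.toList.flatten with hω
  have hωc : Conc s.W ω := ⟨_, fun w hw => by simpa using hw, rfl⟩
  have hωi : ∀ w ∈ s.W, w <:+: ω := fun w hw =>
    List.infix_of_mem_flatten (by simpa using hw)
  have hpos := s.pos
  refine ⟨⟨2 * s.a + 2 * R ω.length + ω.length,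
    {u | u.length ≤ 2 * (2 * s.a + 2 * R ω.length + ω.length) ∧ Conc s.W u ∧ ω <:+: u},
    by omega, fun w hw => hw.1, ?_⟩, by simp only; omega, fun u hu => hu.2.1,
    fun u hu w hw => (hωi w hw).trans hu.2.2⟩
  intro A hA p n h1 h2
  obtain ⟨i, hi1, hi2, hi⟩ := hA ω.length (p + s.a + R ω.length)
  obtain ⟨n1, hn1⟩ : ∃ n1 : ℕ, i = p + n1 := ⟨(i - p).toNat, by omega⟩
  obtain ⟨u1, hu1, hl1, hf1⟩ := s.fillAll A hA n1 p (by omega)
  obtain ⟨u2, hu2, hl2, hf2⟩ := s.fillAll A hA (n - n1 - ω.length) (p + (u1 ++ ω).length) (by omega)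
  refine ⟨u1 ++ ω ++ u2, ⟨?_, (hu1.append hωc).append hu2, ⟨u1, u2, rfl⟩⟩, ?_, ?_⟩
  · simp only [List.length_append]; omega
  · simp only [List.length_append]; omega
  · refine fits_append A _ _ p (fits_append A _ _ p hf1 ?_) hf2
    rw [hl1, ← hn1]
    exact fits_of_subset A ω i hi

/-- The first level. -/
def st0 (R : ℕ → ℕ) : St R where
  a := 1
  W := {[true], [false], [false, false]}
  pos := le_rfl
  len := by
    intro w hw
    rcases hw with rfl | rfl | rfl <;> simp
  fill := by
    intro A _ p n h1 h2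
    obtain rfl | rfl : n = 1 ∨ n = 2 := by omega
    · exact ⟨[false], by simp, rfl, by simp [Fits]⟩
    · exact ⟨[false, false], by simp, rfl, by simp [Fits]⟩

/-- All levels. -/
noncomputable def st (R : ℕ → ℕ) : ℕ → St R
  | 0 => st0 R
  | k + 1 => (st R k).step.choose

theorem st_lt (R : ℕ → ℕ) (k : ℕ) : (st R k).a < (st R (k + 1)).a :=
  (st R k).step.choose_spec.1

theorem st_mono (R : ℕ → ℕ) : StrictMono fun k => (st R k).a :=
  strictMono_nat_of_lt_succ (st_lt R)

theorem st_conc (R : ℕ → ℕ) (k j : ℕ) (h : k ≤ j) : ∀ u ∈ (st R j).W, Conc (st R k).W u := by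
  induction j, h using Nat.le_induction with
  | base => exact fun u hu => Conc.single hu
  | succ j _ ih => exact fun u hu => Conc.trans ih ((st R j).step.choose_spec.2.1 u hu)

theorem st_infix (R : ℕ → ℕ) (k : ℕ) : ∀ u ∈ (st R (k + 1)).W, ∀ w ∈ (st R k).W, w <:+: u :=
  (st R k).step.choose_spec.2.2

/-- The language of the subshift. -/
def Lang (R : ℕ → ℕ) (v : List Bool) : Prop := ∃ k, ∃ u ∈ (st R k).W, v <:+: u

theorem lang_contains {R : ℕ → ℕ} {v : List Bool} (hv : Lang R v) (k : ℕ)
    (hl : 4 * (st R (k + 1)).a + 1 ≤ v.length) : ∀ w ∈ (st R k).W, w <:+: v := by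
  obtain ⟨j, u, hu, hvu⟩ := hv
  intro w hw
  by_cases hj : k + 1 ≤ j
  · obtain ⟨L, hL, rfl⟩ := st_conc R (k + 1) j hj u hu
    have hpos := (st R (k + 1)).pos
    obtain ⟨w', hw', h⟩ := infix_of_flatten (2 * (st R (k + 1)).a) (by omega) L
      (fun x hx => (st R (k + 1)).len x (hL x hx)) v hvu (by omega)
    exact (st_infix R k w' (hL w' hw') w hw).trans h
  · have h1 := hvu.length_le
    have h2 := (st R j).len u hu
    have h3 : (st R j).a ≤ (st R (k + 1)).a := (st_mono R).monotone (by omega)
    omega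

/-- The subshift. -/
def Zs (R : ℕ → ℕ) : Set (ℤ → Bool) := {z | ∀ p n, Lang R (window z p n)}

theorem Zs_closed (R : ℕ → ℕ) : IsClosed (Zs R) := by
  have e : Zs R = ⋂ p, ⋂ n, {z | Lang R (window z p n)} := by
    ext z; simp [Zs]
  rw [e]
  exact isClosed_iInter fun p => isClosed_iInter fun n => isClosed_window n p _

theorem Zs_shift (R : ℕ → ℕ) {z : ℤ → Bool} (hz : z ∈ Zs R) (t : ℤ) :
    (fun i => z (i + t)) ∈ Zs R := by
  intro p n
  have e : window (fun i => z (i + t)) p n = window z (p + t) n := by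
    rw [window_eq_iff]
    intro i _
    congr 1; ring
  rw [e]; exact hz _ _

theorem Zs_occurs (R : ℕ → ℕ) {z : ℤ → Bool} (hz : z ∈ Zs R) {v : List Bool} (hv : Lang R v) :
    ∃ q, v = window z q v.length := by
  obtain ⟨k, u, hu, hvu⟩ := hv
  have := lang_contains (hz 0 (4 * (st R (k + 1)).a + 1)) k (by simp) u hu
  exact infix_window (hvu.trans this)

theorem Zs_approx (R : ℕ → ℕ) {z z' : ℤ → Bool} (hz : z ∈ Zs R) (hz' : z' ∈ Zs R) (n : ℕ) :
    ∃ t : ℤ, ∀ i : ℤ, -(n : ℤ) ≤ i → i ≤ n → z (i + t) = z' i := by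
  obtain ⟨q, hq⟩ := Zs_occurs R hz (hz' (-n) (2 * n + 1))
  rw [window_length, window_eq_iff] at hq
  refine ⟨q + n, fun i h1 h2 => ?_⟩
  obtain ⟨m, hm⟩ : ∃ m : ℕ, i = -n + m := ⟨(i + n).toNat, by omega⟩
  have := hq m (by omega)
  rw [hm, this]
  congr 1; ring

theorem Zs_fit (R : ℕ → ℕ) (A : Set ℤ) (hA : Good R A) :
    ∃ z ∈ Zs R, ∀ t, z t = true → t ∈ A := by
  let C : ℕ → Set (ℤ → Bool) := fun k =>
    {z | (∀ t, z t = true → t ∈ A) ∧
      ∀ (p : ℤ) (n : ℕ), -(k : ℤ) ≤ p → p + n ≤ k → Lang R (window z p n)}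
  have hcl : ∀ k, IsClosed (C k) := by
    intro k
    have e : C k = (⋂ t, {z : ℤ → Bool | z t = true → t ∈ A}) ∩
        ⋂ (p : ℤ), ⋂ (n : ℕ), {z | -(k : ℤ) ≤ p → p + n ≤ k → Lang R (window z p n)} := by
      ext z; simp [C]
    rw [e]
    refine IsClosed.inter (isClosed_iInter fun t => ?_)
      (isClosed_iInter fun p => isClosed_iInter fun n =>
        isClosed_window n p fun l => -(k : ℤ) ≤ p → p + n ≤ k → Lang R l)
    have h := isClosed_window 1 t (fun l => l = [true] → t ∈ A)
    simpa [window] using h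
  have hne : ∀ k, (C k).Nonempty := by
    intro k
    have hk : k ≤ (st R k).a := (st_mono R).id_le k
    obtain ⟨w, hw, hl, hf⟩ := (st R k).fill A hA (-((st R k).a : ℤ)) (2 * (st R k).a)
      (by omega) le_rfl
    obtain ⟨z, hz, hzA⟩ := exists_conf A w _ hf
    refine ⟨z, hzA, fun p n h1 h2 => ⟨k, w, hw, ?_⟩⟩
    rw [← hz]
    exact window_infix z (by omega) (by rw [hl]; push_cast; omega)
  have hdec : ∀ k, C (k + 1) ⊆ C k := by
    intro k z hz
    exact ⟨hz.1, fun p n h1 h2 => hz.2 p n (by push_cast; omega) (by push_cast; omega)⟩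
  obtain ⟨z, hz⟩ := IsCompact.nonempty_iInter_of_sequence_nonempty_isCompact_isClosed C hdec hne
    (hcl 0).isCompact hcl
  rw [mem_iInter] at hz
  refine ⟨z, fun p n => (hz (p.natAbs + n)).2 p n (by omega) (by omega),
    (hz 0).1⟩

theorem Zs_one (R : ℕ → ℕ) : ∃ z ∈ Zs R, z 0 = true := by
  obtain ⟨z, hz, -⟩ := Zs_fit R univ fun L j => ⟨j, by omega, by omega, by simp⟩
  obtain ⟨q, hq⟩ := Zs_occurs R hz (v := [true]) ⟨0, [true], by simp [st, st0], List.infix_refl _⟩
  refine ⟨_, Zs_shift R hz q, ?_⟩
  simp [window] at hq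
  simpa using hq

end Pool.Agent.H492Z.Blocks
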