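import Mathlib

set_option autoImplicit false

open Set

namespace Pool.Agent.H492Z.Disj

/-- The system `(X, T)` is minimal: every nonempty closed `T`-invariant set is all of `X`. -/
def IsMinimalSys {X : Type} [TopologicalSpace X] (T : X ≃ₜ X) : Prop :=
  ∀ A : Set X, IsClosed A → T '' A = A → A.Nonempty → A = univ

/-- Furstenberg disjointness of `(X, T)` and `(Y, S)`: every closed `T × S`-invariant subset of
`X × Y` projecting onto `X` and onto `Y` is all of `X × Y`. -/
def FDisjoint {X Y : Type} [TopologicalSpace X] [TopologicalSpace Y]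
    (T : X ≃ₜ X) (S : Y ≃ₜ Y) : Prop :=
  ∀ J : Set (X × Y), IsClosed J → (fun p : X × Y => (T p.1, S p.2)) '' J = J →
    Prod.fst '' J = univ → Prod.snd '' J = univ → J = univ

/-- `(X, T)` is disjoint from every minimal system (nonempty compact metric space with a minimal
homeomorphism). -/
def PerpMin {X : Type} [TopologicalSpace X] (T : X ≃ₜ X) : Prop :=
  ∀ (Z : Type) [MetricSpace Z] [CompactSpace Z] [Nonempty Z] (R : Z ≃ₜ Z),
    IsMinimalSys R → FDisjoint T R

end Pool.Agent.H492Z.Disj
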