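import Pool.Agent.H492Z.DisjDefs
import Pool.Agent.H492Z.Blocks

set_option autoImplicit false

open Set Topology Filter

namespace Pool.Agent.H492Z.Disj

section basic

variable {X : Type} [TopologicalSpace X]

/-- The `n`-th iterate. -/
def it (T : X ≃ₜ X) (n : ℤ) (x : X) : X := (T ^ n) x

theorem it_add (T : X ≃ₜ X) (a b : ℤ) (x : X) : it T (a + b) x = it T a (it T b x) := by
  simp only [it, zpow_add]; rfl

theorem it_zero (T : X ≃ₜ X) (x : X) : it T 0 x = x := by
  simp only [it, zpow_zero]; rfl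

theorem it_one (T : X ≃ₜ X) (x : X) : it T 1 x = T x := by
  simp only [it, zpow_one]

theorem it_neg_one (T : X ≃ₜ X) (x : X) : it T (-1) x = T.symm x := by
  simp only [it, zpow_neg_one]; rfl

theorem it_cont (T : X ≃ₜ X) (n : ℤ) : Continuous (it T n) := (T ^ n).continuous

theorem it_succ (T : X ≃ₜ X) (n : ℤ) (x : X) : it T (n + 1) x = T (it T n x) := by
  rw [add_comm, it_add, it_one]

theorem it_pred (T : X ≃ₜ X) (n : ℤ) (x : X) : it T (n - 1) x = T.symm (it T n x) := by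
  rw [sub_eq_neg_add, it_add, it_neg_one]

theorem it_T (T : X ≃ₜ X) (n : ℤ) (x : X) : it T n (T x) = it T (n + 1) x := by
  rw [it_add, it_one]

theorem it_symm (T : X ≃ₜ X) (n : ℤ) (x : X) : it T n (T.symm x) = it T (n - 1) x := by
  rw [sub_eq_add_neg, it_add, it_neg_one]

theorem it_semiconj {Y : Type} [TopologicalSpace Y] {T : X ≃ₜ X} {S : Y ≃ₜ Y} (f : X → Y)
    (h : ∀ x, f (T x) = S (f x)) (n : ℤ) (x : X) : f (it T n x) = it S n (f x) := by
  have h' : ∀ x, f (T.symm x) = S.symm (f x) := by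
    intro x
    apply S.injective
    rw [← h]; simp
  induction n using Int.induction_on with
  | zero => rw [it_zero, it_zero]
  | succ n ih => rw [it_succ, it_succ, h, ih]
  | pred n ih => rw [it_pred, it_pred, h', ih]

theorem it_prod {Y : Type} [TopologicalSpace Y] (T : X ≃ₜ X) (S : Y ≃ₜ Y) (n : ℤ) (p : X × Y) :
    it (T.prodCongr S) n p = (it T n p.1, it S n p.2) :=
  Prod.ext (it_semiconj (T := T.prodCongr S) (S := T) Prod.fst (fun _ => rfl) n p)
    (it_semiconj (T := T.prodCongr S) (S := S) Prod.snd (fun _ => rfl) n p)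

/-- Invariance under all iterates. -/
def Inv (T : X ≃ₜ X) (A : Set X) : Prop := ∀ (n : ℤ), ∀ x ∈ A, it T n x ∈ A

theorem inv_iff (T : X ≃ₜ X) (A : Set X) : Inv T A ↔ T '' A = A := by
  constructor
  · intro h
    apply Subset.antisymm
    · rintro _ ⟨x, hx, rfl⟩
      rw [← it_one]; exact h 1 x hx
    · intro x hx
      exact ⟨T.symm x, by rw [← it_neg_one]; exact h _ x hx, by simp⟩
  · intro h n x hx
    induction n using Int.induction_on with
    | zero => rwa [it_zero]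
    | succ n ih => rw [it_succ, ← h]; exact mem_image_of_mem _ ih
    | pred n ih =>
      rw [it_pred]
      rw [← h] at ih
      obtain ⟨y, hy, hy'⟩ := ih
      rw [← hy']; simpa using hy

/-- `M` is a minimal set. -/
structure MinSet (T : X ≃ₜ X) (M : Set X) : Prop where
  ne : M.Nonempty
  closed : IsClosed M
  inv : Inv T M
  min : ∀ A, A ⊆ M → IsClosed A → Inv T A → A.Nonempty → A = M

theorem exists_minSet [CompactSpace X] (T : X ≃ₜ X) {A : Set X} (hA : IsClosed A) (hi : Inv T A)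
    (hne : A.Nonempty) : ∃ M, M ⊆ A ∧ MinSet T M := by
  let S : Set (Set X) := {B | B.Nonempty ∧ IsClosed B ∧ Inv T B}
  obtain ⟨M, hMA, hM⟩ := zorn_superset_nonempty S (by
    intro c hc hchain hcne
    refine ⟨⋂₀ c, ⟨?_, isClosed_sInter fun B hB => (hc hB).2.1, ?_⟩,
      fun B hB => sInter_subset_of_mem hB⟩
    · have : Nonempty c := hcne.to_subtype
      exact IsCompact.nonempty_sInter_of_directed_nonempty_isCompact_isClosed
        (fun a ha b hb => by
          rcases hchain.total ha hb with h | h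
          · exact ⟨a, ha, subset_rfl, h⟩
          · exact ⟨b, hb, h, subset_rfl⟩)
        (fun B hB => (hc hB).1) (fun B hB => (hc hB).2.1.isCompact)
        (fun B hB => (hc hB).2.1)
    · intro n x hx B hB
      exact (hc hB).2.2 n x (hx B hB)) A ⟨hne, hA, hi⟩
  refine ⟨M, hMA, hM.prop.1, hM.prop.2.1, hM.prop.2.2, fun B hB h1 h2 h3 => ?_⟩
  exact Subset.antisymm hB (hM.le_of_le ⟨h3, h1, h2⟩ hB)

theorem minSet_univ [Nonempty X] {T : X ≃ₜ X} (h : IsMinimalSys T) : MinSet T univ :=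
  ⟨univ_nonempty, isClosed_univ, fun _ _ _ => mem_univ _,
    fun A _ h1 h2 h3 => h A h1 ((inv_iff T A).1 h2) h3⟩

theorem MinSet.visit {T : X ≃ₜ X} {K : Set X} (hK : MinSet T K) {O : Set X} (hO : IsOpen O)
    (hne : (K ∩ O).Nonempty) : ∀ k ∈ K, ∃ s, it T s k ∈ O := by
  by_contra hcon
  push Not at hcon
  obtain ⟨k, hk, hkO⟩ := hcon
  have hcl : IsClosed (K ∩ ⋂ s, (it T s) ⁻¹' Oᶜ) :=
    hK.closed.inter (isClosed_iInter fun s => hO.isClosed_compl.preimage (it_cont T s))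
  have := hK.min _ inter_subset_left hcl (by
    intro n x hx
    refine ⟨hK.inv n x hx.1, mem_iInter.2 fun s => ?_⟩
    have := mem_iInter.1 hx.2 (s + n)
    rwa [mem_preimage, it_add] at this) ⟨k, hk, mem_iInter.2 fun s => hkO s⟩
  obtain ⟨x, hx, hxO⟩ := hne
  rw [← this] at hx
  have h0 := mem_iInter.1 hx.2 0
  rw [mem_preimage, it_zero] at h0
  exact h0 hxO

theorem MinSet.syndetic [CompactSpace X] {T : X ≃ₜ X} {K : Set X} (hK : MinSet T K) {O : Set X}
    (hO : IsOpen O) (hne : (K ∩ O).Nonempty) :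
    ∃ F : Finset ℤ, ∀ k ∈ K, ∃ s ∈ F, it T s k ∈ O := by
  obtain ⟨F, hF⟩ := hK.closed.isCompact.elim_finite_subcover (fun s : ℤ => (it T s) ⁻¹' O)
    (fun s => hO.preimage (it_cont T s)) (fun k hk => mem_iUnion.2 (hK.visit hO hne k hk))
  refine ⟨F, fun k hk => ?_⟩
  simpa using hF hk

end basic

theorem unif_cont {X : Type} [MetricSpace X] [CompactSpace X] (T : X ≃ₜ X) (F : Finset ℤ)
    {ε : ℝ} (hε : 0 < ε) :
    ∃ δ > 0, ∀ x x', dist x x' < δ → ∀ s ∈ F, dist (it T s x) (it T s x') < ε := by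
  have h : ∀ᶠ p : X × X in uniformity X, ∀ s ∈ F, dist (it T s p.1) (it T s p.2) < ε := by
    rw [Filter.eventually_all_finset]
    intro s _
    have hu := CompactSpace.uniformContinuous_of_continuous (it_cont T s)
    exact hu (Metric.dist_mem_uniformity hε)
  obtain ⟨δ, hδ, h'⟩ := Metric.mem_uniformity_dist.1 h
  exact ⟨δ, hδ, fun x x' hx => h' hx⟩

/-- Disjointness from all minimal systems gives a point hitting `U` simultaneously with every
point of a minimal set. -/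
theorem PerpMin.hit {X W : Type} [TopologicalSpace X] [CompactSpace X] [MetricSpace W] [CompactSpace W]
    {T : X ≃ₜ X} (hT : PerpMin T) {Q : W ≃ₜ W} {M : Set W} (hM : MinSet Q M)
    {U : Set X} (hU : IsOpen U) (hUne : U.Nonempty) {V : Set W} (hV : IsOpen V)
    (hVne : (M ∩ V).Nonempty) :
    ∃ x, ∀ m ∈ M, ∃ t, it T t x ∈ U ∧ it Q t m ∈ V := by
  by_contra hcon
  push Not at hcon
  have hiff : ∀ w, w ∈ M ↔ Q w ∈ M := by
    intro w
    constructor
    · intro h; rw [← it_one]; exact hM.inv _ _ h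
    · intro h
      have := hM.inv (-1) _ h
      rwa [it_neg_one, Homeomorph.symm_apply_apply] at this
  let Q' : M ≃ₜ M := Q.subtype hiff
  have hQ' : ∀ (n : ℤ) (m : M), ((it Q' n m : M) : W) = it Q n m :=
    fun n m => it_semiconj (T := Q') (S := Q) Subtype.val (fun _ => rfl) n m
  have : CompactSpace M := isCompact_iff_compactSpace.1 hM.closed.isCompact
  have : Nonempty M := hM.ne.to_subtype
  have hmin : IsMinimalSys Q' := by
    intro A hA hinv hne
    have h1 := hM.min (Subtype.val '' A) (by rintro _ ⟨m, _, rfl⟩; exact m.2)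
      (hA.isCompact.image continuous_subtype_val).isClosed
      (by
        rintro n _ ⟨m, hm, rfl⟩
        exact ⟨it Q' n m, (inv_iff Q' A).2 hinv n m hm, hQ' n m⟩) (hne.image _)
    ext m
    have : (m : W) ∈ Subtype.val '' A := by rw [h1]; exact m.2
    obtain ⟨m', hm', e⟩ := this
    have : m' = m := Subtype.ext e
    simpa [← this] using hm'
  let J : Set (X × M) := {p | ∀ t, it T t p.1 ∈ U → it Q t p.2 ∉ V}
  have hJc : IsClosed J := by
    have e : J = ⋂ t, ((fun p : X × M => it T t p.1) ⁻¹' U ∩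
        (fun p : X × M => it Q t p.2) ⁻¹' V)ᶜ := by
      ext p; simp [J]
    rw [e]
    refine isClosed_iInter fun t => (IsOpen.inter (hU.preimage ?_) (hV.preimage ?_)).isClosed_compl
    · exact (it_cont T t).comp continuous_fst
    · exact (it_cont Q t).comp (continuous_subtype_val.comp continuous_snd)
  have hJi : Inv (T.prodCongr Q') J := by
    intro n p hp t
    rw [it_prod]
    simp only [hQ']
    rw [← it_add, ← it_add]
    exact hp _
  have hfst : Prod.fst '' J = univ := by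
    refine eq_univ_of_forall fun x => ?_
    obtain ⟨m, hm, h⟩ := hcon x
    exact ⟨(x, ⟨m, hm⟩), h, rfl⟩
  obtain ⟨u, hu⟩ := hUne
  have hall : J = univ := by
    refine hT M Q' hmin J hJc ((inv_iff (T.prodCongr Q') J).1 hJi) hfst ?_
    refine hmin _ (hJc.isCompact.image continuous_snd).isClosed ((inv_iff Q' _).1 ?_) ?_
    · rintro n _ ⟨p, hp, rfl⟩
      exact ⟨_, hJi n p hp, by rw [it_prod]⟩
    · obtain ⟨m, hm, h⟩ := hcon u
      exact ⟨⟨m, hm⟩, (u, ⟨m, hm⟩), h, rfl⟩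
  obtain ⟨v, hvM, hvV⟩ := hVne
  have : (u, (⟨v, hvM⟩ : M)) ∈ J := by rw [hall]; trivial
  exact this 0 (by rwa [it_zero]) (by rwa [it_zero])

/-- The shift on two symbols. -/
def shift : (ℤ → Bool) ≃ₜ (ℤ → Bool) where
  toFun z := fun i => z (i + 1)
  invFun z := fun i => z (i - 1)
  left_inv z := by ext i; simp
  right_inv z := by ext i; simp
  continuous_toFun := continuous_pi fun i => continuous_apply (i + 1)
  continuous_invFun := continuous_pi fun i => continuous_apply (i - 1)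

theorem it_shift (n : ℤ) (z : ℤ → Bool) : it shift n z = fun i => z (i + n) := by
  induction n using Int.induction_on with
  | zero => rw [it_zero]; simp
  | succ n ih =>
    rw [it_succ, ih]; ext i
    show z (i + 1 + n) = _
    congr 1; ring
  | pred n ih =>
    rw [it_pred, ih]; ext i
    show z (i - 1 + -n) = _
    congr 1; ring

theorem minSet_Zs (R : ℕ → ℕ) : MinSet shift (Blocks.Zs R) := by
  refine ⟨(Blocks.Zs_one R).imp fun z h => h.1, Blocks.Zs_closed R, ?_, ?_⟩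
  · intro n z hz
    rw [it_shift]; exact Blocks.Zs_shift R hz n
  · intro A hA hcl hinv ⟨z, hz⟩
    refine Subset.antisymm hA fun z' hz' => ?_
    choose t ht using fun n => Blocks.Zs_approx R (hA hz) hz' n
    refine hcl.mem_of_tendsto (b := atTop) (f := fun n => it shift (t n) z) ?_
      (Eventually.of_forall fun n => hinv _ _ hz)
    rw [tendsto_pi_nhds]
    intro i
    refine tendsto_const_nhds.congr' ?_
    filter_upwards [eventually_ge_atTop i.natAbs] with n hn
    rw [it_shift]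
    exact (ht n i (by omega) (by omega)).symm

/-- A system disjoint from all minimal systems has a dense set of minimal points. -/
theorem PerpMin.dense_min {X : Type} [MetricSpace X] [CompactSpace X] {T : X ≃ₜ X}
    (hT : PerpMin T) {U : Set X} (hU : IsOpen U) (hne : U.Nonempty) :
    ∃ M, MinSet T M ∧ (M ∩ U).Nonempty := by
  by_contra hcon
  push Not at hcon
  obtain ⟨u, hu⟩ := hne
  obtain ⟨ε, hε, hball⟩ := Metric.nhds_basis_closedBall.mem_iff.1 (hU.mem_nhds hu)
  set C := Metric.closedBall u ε with hC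
  have hCc : IsClosed C := Metric.isClosed_closedBall
  have hR : ∀ L : ℕ, ∃ r : ℕ, ∀ x, ∃ i : ℤ, -(r : ℤ) ≤ i ∧ i ≤ r ∧
      ∀ l : ℕ, l < L → it T (l + i) x ∉ C := by
    intro L
    let G : Set X := ⋂ l ∈ Finset.range L, (it T l) ⁻¹' Cᶜ
    have hG : IsOpen G :=
      isOpen_biInter_finset fun l _ => hCc.isOpen_compl.preimage (it_cont T l)
    have hcov : ∀ x, ∃ i, it T i x ∈ G := by
      by_contra h
      push Not at h
      obtain ⟨x, hx⟩ := h
      obtain ⟨M, hMA, hM⟩ := exists_minSet T (A := ⋂ i, (it T i) ⁻¹' Gᶜ)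
        (isClosed_iInter fun i => hG.isClosed_compl.preimage (it_cont T i))
        (by
          intro n y hy
          refine mem_iInter.2 fun s => ?_
          have := mem_iInter.1 hy (s + n)
          rwa [mem_preimage, it_add] at this) ⟨x, mem_iInter.2 hx⟩
      obtain ⟨m, hm⟩ := hM.ne
      have h0 := mem_iInter.1 (hMA hm) 0
      rw [mem_preimage, it_zero] at h0
      apply h0
      refine mem_iInter₂.2 fun l _ hl => ?_
      have : it T l m ∈ M ∩ U := ⟨hM.inv _ _ hm, hball hl⟩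
      rw [hcon M hM] at this
      exact this
    obtain ⟨F, hF⟩ := isCompact_univ.elim_finite_subcover (fun s : ℤ => (it T s) ⁻¹' G)
      (fun s => hG.preimage (it_cont T s)) (fun x _ => mem_iUnion.2 (hcov x))
    refine ⟨F.sup Int.natAbs, fun x => ?_⟩
    obtain ⟨i, hiF, hi⟩ : ∃ i ∈ F, it T i x ∈ G := by simpa using hF (mem_univ x)
    have hle : i.natAbs ≤ F.sup Int.natAbs := Finset.le_sup (f := Int.natAbs) hiF
    refine ⟨i, by omega, by omega, fun l hl => ?_⟩
    have := mem_iInter₂.1 hi l (Finset.mem_range.2 hl)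
    rwa [mem_preimage, ← it_add] at this
  choose R hR using hR
  have hopen : IsOpen {z : ℤ → Bool | z 0 = true} :=
    (isOpen_discrete ({true} : Set Bool)).preimage (f := fun z : ℤ → Bool => z 0)
      (continuous_apply (0 : ℤ))
  let _ : MetricSpace (ℤ → Bool) := TopologicalSpace.metrizableSpaceMetric (ℤ → Bool)
  obtain ⟨x, hx⟩ := hT.hit (W := ℤ → Bool) (minSet_Zs R) (U := Metric.ball u ε)
    Metric.isOpen_ball ⟨u, Metric.mem_ball_self hε⟩ (V := {z | z 0 = true})
    hopen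
    (Blocks.Zs_one R)
  have hgood : Blocks.Good R {t | it T t x ∉ C} := by
    intro L j
    obtain ⟨i, h1, h2, h⟩ := hR L (it T j x)
    refine ⟨i + j, by omega, by omega, fun l hl1 hl2 => ?_⟩
    obtain ⟨m, rfl⟩ : ∃ m : ℕ, l = m + i + j := ⟨(l - i - j).toNat, by omega⟩
    have := h m (by omega)
    rwa [← it_add] at this
  obtain ⟨z, hz, hzA⟩ := Blocks.Zs_fit R _ hgood
  obtain ⟨t, ht1, ht2⟩ := hx z hz
  rw [it_shift] at ht2
  have : z t = true := by simpa using ht2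
  exact hzA t this (Metric.ball_subset_closedBall ht1)

theorem triple {X Y Z : Type} [TopologicalSpace X] [CompactSpace X] [TopologicalSpace Y]
    [CompactSpace Y] [TopologicalSpace Z] [CompactSpace Z] [T2Space Z]
    {T : X ≃ₜ X} {S : Y ≃ₜ Y} {R : Z ≃ₜ Z} {M : Set X} {N : Set Y} (hM : MinSet T M)
    (hN : MinSet S N) (hZ : MinSet R univ) {B1 : Set X} {B2 : Set Y} {V : Set Z}
    (h1 : IsOpen B1) (h2 : IsOpen B2) (hV : IsOpen V) (n1 : (M ∩ B1).Nonempty)
    (n2 : (N ∩ B2).Nonempty) (nV : V.Nonempty) :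
    ∃ F : Finset ℤ, ∀ z, ∃ m ∈ M, ∃ n ∈ N, ∀ τ : ℤ, ∃ s ∈ F,
      it T (s + τ) m ∈ B1 ∧ it S (s + τ) n ∈ B2 ∧ it R (s + τ) z ∈ V := by
  let Q := T.prodCongr (S.prodCongr R)
  have hQ : ∀ (t : ℤ) (p : X × Y × Z), it Q t p = (it T t p.1, it S t p.2.1, it R t p.2.2) := by
    intro t p
    rw [it_prod, it_prod]
  obtain ⟨K, hKA, hK⟩ := exists_minSet Q (A := M ×ˢ N ×ˢ univ)
    (hM.closed.prod (hN.closed.prod isClosed_univ))
    (by
      intro t p hp
      rw [hQ]
      exact ⟨hM.inv _ _ hp.1, hN.inv _ _ hp.2.1, mem_univ _⟩)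
    (hM.ne.prod (hN.ne.prod hZ.ne))
  obtain ⟨k0, hk0⟩ := hK.ne
  obtain ⟨a, ha⟩ := hM.visit h1 n1 k0.1 (hKA hk0).1
  obtain ⟨b, hb⟩ := hN.visit h2 n2 k0.2.1 (hKA hk0).2.1
  obtain ⟨c, hc⟩ := hZ.visit hV (by simpa using nV) k0.2.2 (mem_univ _)
  obtain ⟨F, hF⟩ := hK.syndetic (O := (it T a ⁻¹' B1) ×ˢ (it S b ⁻¹' B2) ×ˢ (it R c ⁻¹' V))
    ((h1.preimage (it_cont T a)).prod ((h2.preimage (it_cont S b)).prod
      (hV.preimage (it_cont R c)))) ⟨k0, hk0, ha, hb, hc⟩
  have hproj : (fun p : X × Y × Z => p.2.2) '' K = univ := by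
    refine hZ.min _ (subset_univ _)
      (hK.closed.isCompact.image (continuous_snd.comp continuous_snd)).isClosed ?_
      (hK.ne.image _)
    rintro t _ ⟨p, hp, rfl⟩
    exact ⟨_, hK.inv t p hp, by rw [hQ]⟩
  refine ⟨F, fun z => ?_⟩
  obtain ⟨k, hk, hkz⟩ : it R (-c) z ∈ (fun p : X × Y × Z => p.2.2) '' K := by
    rw [hproj]; trivial
  refine ⟨it T a k.1, hM.inv _ _ (hKA hk).1, it S b k.2.1, hN.inv _ _ (hKA hk).2.1, fun τ => ?_⟩
  obtain ⟨s, hs, h⟩ := hF _ (hK.inv τ k hk)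
  rw [← it_add, hQ] at h
  obtain ⟨e1, e2, e3⟩ := h
  simp only [mem_preimage] at e1 e2 e3
  simp only at hkz
  rw [hkz, ← it_add, ← it_add] at e3
  rw [← it_add] at e1 e2
  refine ⟨s, hs, ?_, ?_, ?_⟩
  · rw [← it_add, add_comm]; exact e1
  · rw [← it_add, add_comm]; exact e2
  · rw [show c + (s + τ) + -c = s + τ by ring] at e3; exact e3

theorem prod_hit {X Y Z : Type} [MetricSpace X] [CompactSpace X] [MetricSpace Y]
    [CompactSpace Y] [TopologicalSpace Z] [CompactSpace Z] [T2Space Z]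
    {T : X ≃ₜ X} {S : Y ≃ₜ Y} {R : Z ≃ₜ Z} (hT : PerpMin T) (hS : PerpMin S)
    (hZ : MinSet R univ) {U1 : Set X} {U2 : Set Y} {V : Set Z}
    (h1 : IsOpen U1) (h2 : IsOpen U2) (hV : IsOpen V) (n1 : U1.Nonempty)
    (n2 : U2.Nonempty) (nV : V.Nonempty) :
    ∃ x y, ∀ z, ∃ t, it T t x ∈ U1 ∧ it S t y ∈ U2 ∧ it R t z ∈ V := by
  obtain ⟨M, hM, m0, hm0, hm0U⟩ := hT.dense_min h1 n1
  obtain ⟨N, hN, n0, hn0, hn0U⟩ := hS.dense_min h2 n2
  obtain ⟨ε1, hε1, hb1⟩ := Metric.isOpen_iff.1 h1 m0 hm0U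
  obtain ⟨ε2, hε2, hb2⟩ := Metric.isOpen_iff.1 h2 n0 hn0U
  obtain ⟨F0, hF0⟩ := triple hM hN hZ (B1 := Metric.ball m0 (ε1 / 2))
    (B2 := Metric.ball n0 (ε2 / 2)) Metric.isOpen_ball Metric.isOpen_ball hV
    ⟨m0, hm0, Metric.mem_ball_self (by linarith)⟩ ⟨n0, hn0, Metric.mem_ball_self (by linarith)⟩ nV
  obtain ⟨δ2, hδ2, hu2⟩ := unif_cont S F0 (ε := ε2 / 2) (by linarith)
  -- a minimal point of `Y` that is `δ2`-close to every point of `N` syndetically often
  obtain ⟨y1, hy1⟩ := hS.hit hN (U := Metric.ball n0 (δ2 / 2)) Metric.isOpen_ball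
    ⟨n0, Metric.mem_ball_self (by linarith)⟩ (V := Metric.ball n0 (δ2 / 2)) Metric.isOpen_ball
    ⟨n0, hn0, Metric.mem_ball_self (by linarith)⟩
  let G : ℤ → Set (Y × Y) := fun t => {p | dist (it S t p.1) (it S t p.2) < δ2}
  have hG : ∀ t, IsOpen (G t) := fun t =>
    isOpen_lt (((it_cont S t).comp continuous_fst).dist ((it_cont S t).comp continuous_snd))
      continuous_const
  obtain ⟨F1, hF1⟩ := (isCompact_singleton.prod hN.closed.isCompact :
      IsCompact (({y1} : Set Y) ×ˢ N)).elim_finite_subcover G hG (by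
    rintro ⟨y, n⟩ ⟨hy, hn⟩
    obtain rfl : y = y1 := hy
    obtain ⟨t, e1, e2⟩ := hy1 n hn
    refine mem_iUnion.2 ⟨t, ?_⟩
    have := dist_triangle_right (it S t y) (it S t n) n0
    rw [Metric.mem_ball] at e1 e2
    show dist (it S t y) (it S t n) < δ2
    linarith)
  obtain ⟨W, W', hW, -, hyW, hNW', hWW'⟩ := generalized_tube_lemma isCompact_singleton
    hN.closed.isCompact (isOpen_biUnion fun t _ => hG t) hF1
  obtain ⟨N', hN', y, hyN', hyW'⟩ := hS.dense_min hW ⟨y1, hyW rfl⟩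
  obtain ⟨F2, hF2⟩ := hN'.syndetic hW ⟨y, hyN', hyW'⟩
  -- a point of `X` that is close to every point of `M` along a long interval
  classical
  obtain ⟨δ1, hδ1, hu1⟩ := unif_cont T
    (((F0 ×ˢ F1) ×ˢ F2).image fun q => q.1.1 + q.1.2 + q.2) (ε := ε1 / 2) (by linarith)
  obtain ⟨x, hx⟩ := hT.hit hM (U := Metric.ball m0 (δ1 / 2)) Metric.isOpen_ball
    ⟨m0, Metric.mem_ball_self (by linarith)⟩ (V := Metric.ball m0 (δ1 / 2)) Metric.isOpen_ball
    ⟨m0, hm0, Metric.mem_ball_self (by linarith)⟩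
  refine ⟨x, y, fun z => ?_⟩
  obtain ⟨m, hm, n, hn, hτ⟩ := hF0 z
  obtain ⟨j, e1, e2⟩ := hx m hm
  have hj : dist (it T j x) (it T j m) < δ1 := by
    have := dist_triangle_right (it T j x) (it T j m) m0
    rw [Metric.mem_ball] at e1 e2
    linarith
  obtain ⟨r, hr, hrW⟩ := hF2 _ (hN'.inv j y hyN')
  rw [← it_add] at hrW
  have hmem : (it S (r + j) y, it S (r + j) n) ∈ ⋃ t ∈ F1, G t :=
    hWW' ⟨hrW, hNW' (hN.inv _ _ hn)⟩
  obtain ⟨t, ht, hGt⟩ := mem_iUnion₂.1 hmem
  have hGt' : dist (it S (t + (r + j)) y) (it S (t + (r + j)) n) < δ2 := by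
    rw [it_add S t, it_add S t]; exact hGt
  obtain ⟨s, hs, f1, f2, f3⟩ := hτ (t + (r + j))
  refine ⟨s + (t + (r + j)), hb1 ?_, hb2 ?_, f3⟩
  · have := hu1 _ _ hj (s + t + r)
      (Finset.mem_image.2 ⟨((s, t), r), by simp [hs, ht, hr], rfl⟩)
    rw [← it_add, ← it_add, show s + t + r + j = s + (t + (r + j)) by ring] at this
    have h3 := dist_triangle (it T (s + (t + (r + j))) x) (it T (s + (t + (r + j))) m) m0
    rw [Metric.mem_ball] at f1 ⊢
    linarith
  · have := hu2 _ _ hGt' s hs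
    rw [← it_add, ← it_add] at this
    have h3 := dist_triangle (it S (s + (t + (r + j))) y) (it S (s + (t + (r + j))) n) n0
    rw [Metric.mem_ball] at f2 ⊢
    linarith

theorem main {X Y : Type} [MetricSpace X] [CompactSpace X] [MetricSpace Y] [CompactSpace Y]
    {T : X ≃ₜ X} {S : Y ≃ₜ Y} (hT : PerpMin T) (hS : PerpMin S) : PerpMin (T.prodCongr S) := by
  intro Z _ _ _ R hR J hJ hinv hfst _
  have hinv' : Inv ((T.prodCongr S).prodCongr R) J := (inv_iff _ J).2 hinv
  by_contra hne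
  obtain ⟨⟨⟨x0, y0⟩, z0⟩, h0⟩ := (ne_univ_iff_exists_notMem J).1 hne
  obtain ⟨U, V, hU, hV, hxy, hz0, hUV⟩ := isOpen_prod_iff.1 hJ.isOpen_compl _ _ h0
  obtain ⟨U1, U2, h1, h2, hx0, hy0, h12⟩ := isOpen_prod_iff.1 hU _ _ hxy
  obtain ⟨x, y, h⟩ := prod_hit hT hS (minSet_univ hR) h1 h2 hV ⟨x0, hx0⟩ ⟨y0, hy0⟩ ⟨z0, hz0⟩
  obtain ⟨⟨p, z⟩, hp, e⟩ : (x, y) ∈ Prod.fst '' J := by rw [hfst]; trivial
  obtain rfl : p = (x, y) := e
  obtain ⟨t, e1, e2, e3⟩ := h z
  have := hinv' t _ hp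
  rw [it_prod, it_prod] at this
  exact hUV (mk_mem_prod (h12 (mk_mem_prod e1 e2)) e3) this

end Pool.Agent.H492Z.Disj
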