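import Mathlib

set_option autoImplicit false

namespace Pool.Agent.H492Z.Fix

open Set

abbrev E := EuclideanSpace ℝ (Fin 3)

/-- paraboloid from below, circular cone with apex `(0,0,3)` from above -/
def K : Set E := {p | p 0 ^ 2 + p 1 ^ 2 ≤ p 2 ∧ ∀ c s : ℝ, c ^ 2 + s ^ 2 = 1 → c * p 0 + s * p 1 + p 2 ≤ 3}

def O : Set E := {p | p 0 ^ 2 + p 1 ^ 2 < p 2 ∧ p 2 < 3 ∧ p 0 ^ 2 + p 1 ^ 2 < (3 - p 2) ^ 2}

lemma normsq (x : E) : ‖x‖ ^ 2 = x 0 ^ 2 + x 1 ^ 2 + x 2 ^ 2 := by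
  rw [EuclideanSpace.real_norm_sq_eq, Fin.sum_univ_three]

lemma O_open : IsOpen O := by
  have h1 : IsOpen {p : E | p 0 ^ 2 + p 1 ^ 2 < p 2} := isOpen_lt (by fun_prop) (by fun_prop)
  have h2 : IsOpen {p : E | p 2 < 3} := isOpen_lt (by fun_prop) (by fun_prop)
  have h3 : IsOpen {p : E | p 0 ^ 2 + p 1 ^ 2 < (3 - p 2) ^ 2} := isOpen_lt (by fun_prop) (by fun_prop)
  exact h1.inter (h2.inter h3)

lemma O_sub : O ⊆ K := by
  rintro p ⟨h1, h2, h3⟩
  refine ⟨h1.le, fun c s hcs => ?_⟩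
  have h4 : (c * p 0 + s * p 1) ^ 2 ≤ p 0 ^ 2 + p 1 ^ 2 := by nlinarith [sq_nonneg (c * p 1 - s * p 0)]
  have h5 : c * p 0 + s * p 1 ≤ 3 - p 2 := by
    by_contra h
    push Not at h
    nlinarith
  linarith

lemma O_int : O ⊆ interior K := interior_maximal O_sub O_open

lemma K_closed : IsClosed K := by
  have : K = {p : E | p 0 ^ 2 + p 1 ^ 2 ≤ p 2} ∩ ⋂ c : ℝ, ⋂ s : ℝ, ⋂ _ : c ^ 2 + s ^ 2 = 1,
      {p : E | c * p 0 + s * p 1 + p 2 ≤ 3} := by
    ext p; simp [K]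
  rw [this]
  refine IsClosed.inter (isClosed_le (by fun_prop) (by fun_prop)) ?_
  exact isClosed_iInter fun c => isClosed_iInter fun s => isClosed_iInter fun _ =>
    isClosed_le (by fun_prop) (by fun_prop)

lemma K_compact : IsCompact K := by
  refine Metric.isCompact_of_isClosed_isBounded K_closed ?_
  refine (Metric.isBounded_closedBall (x := (0 : E)) (r := 4)).subset ?_
  rintro p ⟨h1, h2⟩
  have a := h2 1 0 (by norm_num)
  have b := h2 (-1) 0 (by norm_num)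
  have h3 : p 2 ≤ 3 := by linarith
  have h4 : 0 ≤ p 2 := by nlinarith [sq_nonneg (p 0), sq_nonneg (p 1)]
  rw [mem_closedBall_zero_iff]
  have := normsq p
  nlinarith [norm_nonneg p]

lemma K_convex : Convex ℝ K := by
  rintro p ⟨h1, h2⟩ q ⟨h3, h4⟩ a b ha hb hab
  refine ⟨?_, fun c s hcs => ?_⟩
  · simp only [PiLp.add_apply, PiLp.smul_apply, smul_eq_mul]
    have hb' : b = 1 - a := by linarith
    subst hb'
    nlinarith [mul_nonneg ha hb, sq_nonneg (p 0 - q 0), sq_nonneg (p 1 - q 1),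
      mul_nonneg (mul_nonneg ha hb) (sq_nonneg (p 0 - q 0)), mul_nonneg (mul_nonneg ha hb) (sq_nonneg (p 1 - q 1)),
      mul_le_mul_of_nonneg_left h1 ha, mul_le_mul_of_nonneg_left h3 hb]
  · simp only [PiLp.add_apply, PiLp.smul_apply, smul_eq_mul]
    have := mul_le_mul_of_nonneg_left (h2 c s hcs) ha
    have := mul_le_mul_of_nonneg_left (h4 c s hcs) hb
    nlinarith

lemma int_strict {p : E} (hp : p ∈ interior K) :
    p 0 ^ 2 + p 1 ^ 2 < p 2 ∧ ∀ c s : ℝ, c ^ 2 + s ^ 2 = 1 → c * p 0 + s * p 1 + p 2 < 3 := by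
  obtain ⟨e, he, hb⟩ := Metric.mem_nhds_iff.1 (mem_interior_iff_mem_nhds.1 hp)
  have key : ∀ t : ℝ, |t| < e → p + !₂[0, 0, t] ∈ K := by
    intro t ht
    apply hb
    rw [Metric.mem_ball, dist_eq_norm, add_sub_cancel_left]
    have := normsq (!₂[0, 0, t] : E)
    simp at this
    have h2 : ‖(!₂[0, 0, t] : E)‖ = |t| := by
      rw [← abs_of_nonneg (norm_nonneg (!₂[0, 0, t] : E))]
      exact sq_eq_sq_iff_abs_eq_abs _ _ |>.1 this
    rw [h2]; exact ht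
  constructor
  · have := (key (-(e / 2)) (by rw [abs_neg, abs_of_pos (by linarith)]; linarith)).1
    simp at this
    linarith
  · intro c s hcs
    have := (key (e / 2) (by rw [abs_of_pos (by linarith)]; linarith)).2 c s hcs
    simp at this
    linarith

lemma mem_int_image (x p : E) : p ∈ interior ((fun y => x + y) '' K) ↔ p + -x ∈ interior K := by
  have := (Homeomorph.addLeft x).image_interior K
  simp only [Homeomorph.coe_addLeft] at this
  rw [← this]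
  constructor
  · rintro ⟨y, hy, rfl⟩
    simpa using hy
  · intro h
    exact ⟨_, h, by simp⟩

def Fixes (A : Set E) : Prop :=
  ∃ ε : ℝ, 0 < ε ∧ ∀ x : E, x ≠ 0 → ‖x‖ ≤ ε → (A ∩ interior ((fun y => x + y) '' K)).Nonempty

def F (r : ℝ) : Set E := {p | (p 0 = 0 ∧ p 1 = 0 ∧ p 2 = 3) ∨ (p 0 ^ 2 + p 1 ^ 2 = r ^ 2 ∧ p 2 = r ^ 2)}

lemma F_sub_K {r : ℝ} (h0 : 0 ≤ r) (h1 : r ≤ 1) : F r ⊆ K := by
  rintro p (⟨a, b, c⟩ | ⟨a, b⟩)
  · refine ⟨by rw [a, b, c]; norm_num, fun c' s _ => by rw [a, b, c]; norm_num⟩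
  · refine ⟨by linarith, fun c s hcs => ?_⟩
    have hr : r ^ 2 ≤ 1 := by nlinarith
    nlinarith [sq_nonneg (c - p 0), sq_nonneg (s - p 1)]

lemma F_front {r : ℝ} (h0 : 0 ≤ r) (h1 : r ≤ 1) : F r ⊆ frontier K := by
  intro p hp
  refine ⟨subset_closure (F_sub_K h0 h1 hp), fun hi => ?_⟩
  obtain ⟨s1, s2⟩ := int_strict hi
  rcases hp with ⟨a, b, c⟩ | ⟨a, b⟩
  · have := s2 1 0 (by norm_num)
    rw [a, b, c] at this
    norm_num at this
  · linarith

lemma polar (a b : ℝ) : ∃ c s ρ : ℝ, c ^ 2 + s ^ 2 = 1 ∧ 0 ≤ ρ ∧ a = -(ρ * c) ∧ b = -(ρ * s) := by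
  by_cases h : a ^ 2 + b ^ 2 = 0
  · refine ⟨1, 0, 0, by norm_num, le_rfl, ?_, ?_⟩ <;> nlinarith [sq_nonneg a, sq_nonneg b]
  · have hp : 0 < a ^ 2 + b ^ 2 := lt_of_le_of_ne (by positivity) (Ne.symm h)
    have hs := Real.sqrt_pos.2 hp
    have hq := Real.sq_sqrt hp.le
    refine ⟨-a / √(a ^ 2 + b ^ 2), -b / √(a ^ 2 + b ^ 2), √(a ^ 2 + b ^ 2), ?_, hs.le, ?_, ?_⟩
    · field_simp
      linarith
    · field_simp
    · field_simp

lemma F_cover {δ : ℝ} (h0 : 0 < δ) (h1 : δ ≤ 1 / 2) (z : E) (hz : ‖z‖ = δ) :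
    ∃ p ∈ F (1 / 2 + δ), p + z ∈ interior K := by
  obtain ⟨c, s, ρ, hcs, hρ, ha, hb⟩ := polar (z 0) (z 1)
  have hn := normsq z
  rw [hz] at hn
  have hρ2 : z 0 ^ 2 + z 1 ^ 2 = ρ ^ 2 := by rw [ha, hb]; nlinarith
  have hρδ : ρ ≤ δ := by nlinarith [sq_nonneg (z 2)]
  have hz2 : z 2 ^ 2 ≤ δ ^ 2 := by nlinarith [sq_nonneg ρ]
  have hz2a : z 2 ≤ δ := by nlinarith
  have hz2b : -δ ≤ z 2 := by nlinarith
  by_cases h : ρ < -z 2
  · refine ⟨!₂[0, 0, 3], Or.inl (by simp), O_int ?_⟩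
    refine ⟨?_, ?_, ?_⟩ <;> simp
    · nlinarith
    · linarith
    · nlinarith
  · push Not at h
    set r := 1 / 2 + δ with hr
    refine ⟨!₂[r * c, r * s, r ^ 2], Or.inr ⟨by simp; nlinarith, by simp⟩, O_int ?_⟩
    have e1 : (r * c + z 0) ^ 2 + (r * s + z 1) ^ 2 = (r - ρ) ^ 2 := by
      rw [ha, hb]; nlinarith
    have hr1 : r ≤ 1 := by linarith
    have hr0 : 0 ≤ r - ρ := by linarith
    refine ⟨?_, ?_, ?_⟩ <;> simp
    · rw [e1]
      rcases hρ.eq_or_lt with h2 | h2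
      · have : 0 < z 2 := by
          rcases (show 0 ≤ z 2 by linarith).eq_or_lt with h3 | h3
          · nlinarith
          · exact h3
        rw [← h2]; linarith
      · nlinarith
    · nlinarith
    · rw [e1]
      have : r - ρ < 3 - (r ^ 2 + z 2) := by nlinarith
      nlinarith

lemma exists_finite {δ : ℝ} (h0 : 0 < δ) (h1 : δ ≤ 1 / 2) :
    ∃ A : Set E, A ⊆ F (1 / 2 + δ) ∧ A.Finite ∧ Fixes A := by
  have hc : IsCompact (Metric.sphere (0 : E) δ) := isCompact_sphere _ _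
  obtain ⟨A, hA, hfin, hcov⟩ := hc.elim_finite_subcover_image (b := F (1 / 2 + δ))
    (c := fun p => {z : E | p + z ∈ interior K})
    (fun p _ => isOpen_interior.preimage (by fun_prop))
    (fun z hz => by
      obtain ⟨p, hp, h⟩ := F_cover h0 h1 z (by simpa using hz)
      exact mem_biUnion hp h)
  refine ⟨A, hA, hfin, δ, h0, fun x hx hxδ => ?_⟩
  have hxn : 0 < ‖x‖ := norm_pos_iff.2 hx
  have hz : (-(δ / ‖x‖)) • x ∈ Metric.sphere (0 : E) δ := by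
    rw [mem_sphere_zero_iff_norm, norm_smul, Real.norm_eq_abs, abs_neg, abs_of_pos (by positivity)]
    field_simp
  obtain ⟨p, hp, h⟩ := mem_iUnion₂.1 (hcov hz)
  refine ⟨p, hp, (mem_int_image x p).2 ?_⟩
  have hpK : p ∈ K := F_sub_K (by linarith) (by linarith) (hA hp)
  have := K_convex.add_smul_mem_interior hpK h (t := ‖x‖ / δ)
    ⟨by positivity, (div_le_one h0).2 hxδ⟩
  rw [smul_smul] at this
  have e : ‖x‖ / δ * -(δ / ‖x‖) = -1 := by field_simp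
  rw [e, neg_one_smul] at this
  exact this

lemma exists_prim {δ : ℝ} (h0 : 0 < δ) (h1 : δ ≤ 1 / 2) :
    ∃ A : Set E, A ⊆ F (1 / 2 + δ) ∧ Fixes A ∧ ∀ B ⊆ A, B ≠ A → ¬ Fixes B := by
  classical
  have hex : ∃ n : ℕ, ∃ A : Set E, A ⊆ F (1 / 2 + δ) ∧ A.Finite ∧ Fixes A ∧ A.ncard = n := by
    obtain ⟨A, a, b, c⟩ := exists_finite h0 h1
    exact ⟨_, A, a, b, c, rfl⟩
  obtain ⟨A, a, b, c, d⟩ := Nat.find_spec hex
  refine ⟨A, a, c, fun B hB hne hf => ?_⟩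
  have h2 : B.ncard < A.ncard := Set.ncard_lt_ncard (lt_of_le_of_ne hB hne) b
  exact Nat.find_min hex (d ▸ h2) ⟨B, hB.trans a, b.subset hB, hf, rfl⟩

lemma serve {δ : ℝ} (h0 : 0 < δ) (h1 : δ ≤ 1 / 2) {A : Set E} (hA : A ⊆ F (1 / 2 + δ))
    (hf : Fixes A) (u : ℝ) (hu0 : 0 ≤ u) (hu1 : u ≤ 1) :
    ∃ p ∈ A, (p 0 + (1 / 2 + δ) * u) ^ 2 < 2 * δ := by
  obtain ⟨ε, hε, h⟩ := hf
  have hv := Real.sq_sqrt (show 0 ≤ 1 - u ^ 2 by nlinarith)
  set v := √(1 - u ^ 2)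
  set τ := ε / 2 with hτ
  have hτ0 : 0 < τ := by positivity
  have hn := normsq (!₂[-(τ * u), -(τ * v), τ] : E)
  simp at hn
  obtain ⟨p, hp, hi⟩ := h (!₂[-(τ * u), -(τ * v), τ]) (by
      intro h0
      have := congrArg (fun x : E => x 2) h0
      simp at this
      linarith) (by
      have : ‖(!₂[-(τ * u), -(τ * v), τ] : E)‖ ^ 2 ≤ ε ^ 2 := by
        rw [hn]
        have : ε = 2 * τ := by rw [hτ]; ring
        rw [this]
        nlinarith [sq_nonneg τ]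
      exact abs_le_of_sq_le_sq' this hε.le |>.2)
  obtain ⟨s1, s2⟩ := int_strict ((mem_int_image _ p).1 hi)
  simp at s1 s2
  refine ⟨p, hp, ?_⟩
  rcases hA hp with ⟨a, b, c⟩ | ⟨a, b⟩
  · have := s2 u v (by linarith)
    rw [a, b, c] at this
    nlinarith
  · set r := 1 / 2 + δ with hr
    have k1 : τ * (2 * (p 0 * u + p 1 * v) + τ + 1) < 0 := by nlinarith
    have k2 : 2 * (p 0 * u + p 1 * v) + τ + 1 < 0 := by
      by_contra hh
      push Not at hh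
      nlinarith [mul_nonneg hτ0.le hh]
    have hr0 : 0 < r := by linarith
    have k3 : (p 0 + r * u) ^ 2 + (p 1 + r * v) ^ 2 = 2 * r ^ 2 + r * (2 * (p 0 * u + p 1 * v)) := by
      nlinarith
    have k4 : r * (2 * (p 0 * u + p 1 * v)) < -r := by nlinarith
    have k5 : 2 * r ^ 2 - r ≤ 2 * δ := by rw [hr]; nlinarith
    nlinarith [sq_nonneg (p 1 + r * v)]

theorem main (N : ℕ) : ∃ A ⊆ frontier K, Fixes A ∧ (∀ B ⊆ A, B ≠ A → ¬ Fixes B) ∧
    ¬ A.encard ≤ (N : ENat) := by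
  set M : ℝ := N + 1 with hM
  have hM1 : 1 ≤ M := by rw [hM]; linarith [Nat.cast_nonneg (α := ℝ) N]
  set δ : ℝ := 1 / (32 * M ^ 2) with hδ
  have h0 : 0 < δ := by positivity
  have h1 : δ ≤ 1 / 2 := by
    rw [hδ, div_le_div_iff₀ (by positivity) (by norm_num)]; nlinarith
  obtain ⟨A, hA, hf, hmin⟩ := exists_prim h0 h1
  refine ⟨A, hA.trans (F_front (by linarith) (by linarith)), hf, hmin, fun hle => ?_⟩
  have hs : ∀ i : Fin (N + 1), ∃ p ∈ A, (p 0 + (1 / 2 + δ) * ((i : ℝ) / M)) ^ 2 < 2 * δ := by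
    intro i
    refine serve h0 h1 hA hf _ (by positivity) ?_
    rw [div_le_one (by linarith), hM]
    have := i.2
    have : ((i : ℕ) : ℝ) < ((N + 1 : ℕ) : ℝ) := by exact_mod_cast this
    push_cast at this
    linarith
  choose g hg hg2 using hs
  have hinj : Function.Injective g := by
    intro i j hij
    have a := hg2 i
    have b := hg2 j
    rw [hij] at a
    set r := 1 / 2 + δ with hr
    have hr0 : 1 / 2 ≤ r := by linarith
    have k1 : (r * (((i : ℝ) - j) / M)) ^ 2 < 8 * δ := by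
      have : r * (((i : ℝ) - j) / M) = (g j 0 + r * (i / M)) - (g j 0 + r * (j / M)) := by ring
      rw [this]
      nlinarith [sq_nonneg ((g j 0 + r * (i / M)) + (g j 0 + r * (j / M)))]
    have k2 : (((i : ℝ) - j) / M) ^ 2 < 32 * δ := by
      rw [mul_pow] at k1
      have : 1 / 4 ≤ r ^ 2 := by nlinarith
      nlinarith [sq_nonneg (((i : ℝ) - j) / M)]
    have k3 : ((i : ℝ) - j) ^ 2 < 1 := by
      rw [div_pow, hδ, div_lt_iff₀ (by positivity)] at k2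
      have : 32 * (1 / (32 * M ^ 2)) * M ^ 2 = 1 := by field_simp
      linarith
    have k4 : (((i : ℕ) : ℤ) - (j : ℕ)) ^ 2 < 1 := by exact_mod_cast k3
    have k5 : ((i : ℕ) : ℤ) - (j : ℕ) = 0 := by nlinarith
    apply Fin.ext
    omega
  have hr : (Set.range g).encard = ((N + 1 : ℕ) : ENat) := by
    rw [← Set.image_univ, hinj.encard_image]
    simp
  have := (Set.encard_le_encard (show Set.range g ⊆ A by rintro _ ⟨i, rfl⟩; exact hg i)).trans hle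
  rw [hr] at this
  have : N + 1 ≤ N := by exact_mod_cast this
  omega

end Pool.Agent.H492Z.Fix
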