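import Mathlib

/-!
The normalised recurrence function of an aperiodic word has no finite limit.
-/

set_option autoImplicit false

namespace Pool.Agent.H492Z.RecFun

/-- Window lengths that see all factors of length `n`. -/
def S (x : ℕ → ℕ) (n : ℕ) : Set ℕ :=
  {m : ℕ | ∀ p i : ℕ, ∃ q : ℕ, p ≤ q ∧ q + n ≤ p + m ∧ ∀ j < n, x (q + j) = x (i + j)}

/-- The recurrence function. -/
noncomputable def R (x : ℕ → ℕ) (n : ℕ) : ℕ := sInf (S x n)

variable {x : ℕ → ℕ}

theorem R_mem (hU : ∀ n, (S x n).Nonempty) (n : ℕ) : R x n ∈ S x n := Nat.sInf_mem (hU n)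

theorem le_R (hU : ∀ n, (S x n).Nonempty) (n : ℕ) : n ≤ R x n := by
  obtain ⟨q, h1, h2, -⟩ := R_mem hU n 0 0
  omega

theorem minret (hU : ∀ n, (S x n).Nonempty)
    (hA : ¬ ∃ P N : ℕ, 0 < P ∧ ∀ i ≥ N, x (i + P) = x i) {K : ℕ}
    (hK : ∀ n, 1 ≤ n → R x n ≤ K * n) {m a d : ℕ} (hd : 0 < d)
    (h : ∀ j < m, x (a + j) = x (a + d + j)) : m < K * (d + 1) := by
  by_contra hm
  push Not at hm
  apply hA
  refine ⟨d, 0, hd, fun i _ => ?_⟩
  obtain ⟨c, h1, h2, h3⟩ := R_mem hU (d + 1) a i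
  have h4 := hK (d + 1) (by omega)
  obtain ⟨t, rfl⟩ : ∃ t, c = a + t := ⟨c - a, by omega⟩
  have e1 := h3 d (by omega)
  have e2 := h3 0 (by omega)
  have e3 := h t (by omega)
  simp only [add_zero] at e2
  rw [← e1, ← e2, e3]
  congr 1; omega

theorem gap (hU : ∀ n, (S x n).Nonempty) {n : ℕ} (hn : 1 ≤ n) :
    ∃ a, ∀ j < n, x (a + j) = x (a + (R x n - n + 1) + j) := by
  have hle := le_R hU n
  have hnot : R x n - 1 ∉ S x n := Nat.notMem_of_lt_sInf (by show _ < R x n; omega)
  simp only [S, Set.mem_ofPred_eq] at hnot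
  push Not at hnot
  obtain ⟨p, i, hpi⟩ := hnot
  obtain ⟨p', hp1, -, hp3⟩ := R_mem hU (R x n - 1) 1 p
  have hno : ∀ q, p' ≤ q → q + n ≤ p' + (R x n - 1) → ¬ ∀ j < n, x (q + j) = x (i + j) := by
    intro q h1 h2 h3
    obtain ⟨t, rfl⟩ : ∃ t, q = p' + t := ⟨q - p', by omega⟩
    obtain ⟨j, hj, hne⟩ := hpi (p + t) (by omega) (by omega)
    apply hne
    rw [← h3 j hj, add_assoc, add_assoc, hp3 (t + j) (by omega)]
  obtain ⟨a, ha1, ha2, ha3⟩ := R_mem hU n (p' - 1) i
  obtain ⟨b, hb1, hb2, hb3⟩ := R_mem hU n p' i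
  have ha : a = p' - 1 := by
    by_contra hne
    exact hno a (by omega) (by omega) ha3
  have hb : b = p' + (R x n - n) := by
    by_contra hne
    exact hno b (by omega) (by omega) hb3
  refine ⟨a, fun j hj => ?_⟩
  rw [ha3 j hj, ← hb3 j hj]
  congr 1; omega

theorem few_values (hU : ∀ n, (S x n).Nonempty)
    (hA : ¬ ∃ P N : ℕ, 0 < P ∧ ∀ i ≥ N, x (i + P) = x i) {K : ℕ} (hK1 : 1 ≤ K)
    (hK : ∀ n, 1 ≤ n → R x n ≤ K * n) (t : ℕ) (ht : 1 ≤ t) :
    ∃ G : Finset ℕ, G.card ≤ (K * (2 * K + 1) * K * K + 1) ^ 2 ∧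
      ∀ n, K * K * t ≤ n → n ≤ 2 * (K * K * t) → R x n - n + 1 ∈ G := by
  classical
  set N := K * K * t with hN
  set m := K * t with hm
  set M := (2 * K + 1) * N with hM
  have hm1 : 1 ≤ m := Nat.mul_pos hK1 ht
  have hN1 : 1 ≤ N := Nat.mul_pos (Nat.mul_pos hK1 hK1) ht
  have hM1 : 1 ≤ M := Nat.mul_pos (by omega) hN1
  have hKm : K * m = N := by rw [hm, hN]; ring
  have hmN : m ≤ N := by rw [← hKm]; exact Nat.le_mul_of_pos_left _ hK1
  let Occ : Finset ℕ := (Finset.range (K * M)).filter fun s => ∀ j < m, x (s + j) = x j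
  have hsep : ∀ s ∈ Occ, ∀ s' ∈ Occ, s < s' → s + t ≤ s' := by
    intro s hs s' hs' hlt
    obtain ⟨d, rfl⟩ : ∃ d, s' = s + d := ⟨s' - s, by omega⟩
    have h1 := (Finset.mem_filter.1 hs).2
    have h2 := (Finset.mem_filter.1 hs').2
    have := minret hU hA hK (m := m) (a := s) (d := d) (by omega)
      (fun j hj => by rw [h1 j hj, h2 j hj])
    rw [hm] at this
    have := Nat.lt_of_mul_lt_mul_left this
    omega
  have hcard : Occ.card ≤ K * (2 * K + 1) * K * K + 1 := by
    rw [← Finset.card_range (K * (2 * K + 1) * K * K + 1)]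
    refine Finset.card_le_card_of_injOn (fun s => s / t) ?_ ?_
    · intro s hs
      have h1 := Finset.mem_range.1 (Finset.mem_filter.1 hs).1
      have h2 : K * M = K * (2 * K + 1) * K * K * t := by rw [hM, hN]; ring
      have : s / t ≤ K * (2 * K + 1) * K * K :=
        Nat.div_le_of_le_mul (by rw [mul_comm]; omega)
      simp only [Finset.coe_range, Set.mem_Iio]
      omega
    · intro s hs s' hs' he
      simp only at he
      by_contra hne
      rcases lt_or_gt_of_ne hne with h | h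
      · have h1 := hsep s hs s' hs' h
        have h2 : (s + t) / t ≤ s' / t := Nat.div_le_div_right h1
        rw [Nat.add_div_right _ (by omega)] at h2
        omega
      · have h1 := hsep s' hs' s hs h
        have h2 : (s' + t) / t ≤ s / t := Nat.div_le_div_right h1
        rw [Nat.add_div_right _ (by omega)] at h2
        omega
  refine ⟨(Occ ×ˢ Occ).image fun q => q.2 - q.1, ?_, fun n h1 h2 => ?_⟩
  · refine Finset.card_image_le.trans ?_
    rw [Finset.card_product, sq]
    exact Nat.mul_le_mul hcard hcard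
  · obtain ⟨a, ha⟩ := gap hU (n := n) (by omega)
    set g := R x n - n + 1 with hg
    have hRn := hK n (by omega)
    have hle := le_R hU n
    have hKn : K * n ≤ K * (2 * N) := Nat.mul_le_mul_left _ h2
    have hgM : g + m ≤ M := by
      have : M = K * (2 * N) + N := by rw [hM]; ring
      omega
    obtain ⟨c, hc1, hc2, hc3⟩ := R_mem hU m a 0
    have hRm := hK m hm1
    obtain ⟨e, -, he2, he3⟩ := R_mem hU M 0 c
    have hRM := hK M hM1
    obtain ⟨u, rfl⟩ : ∃ u, c = a + u := ⟨c - a, by omega⟩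
    refine Finset.mem_image.2 ⟨(e, e + g), Finset.mem_product.2 ⟨?_, ?_⟩, by simp⟩
    · refine Finset.mem_filter.2 ⟨Finset.mem_range.2 (by simp only; omega), fun j hj => ?_⟩
      simp only
      rw [he3 j (by omega), hc3 j hj, zero_add]
    · refine Finset.mem_filter.2 ⟨Finset.mem_range.2 (by simp only; omega), fun j hj => ?_⟩
      simp only
      have e1 := he3 (g + j) (by omega)
      have e2 := ha (u + j) (by omega)
      have e3 := hc3 j hj
      rw [add_assoc, e1, show a + u + (g + j) = a + g + (u + j) by omega, ← e2, ← add_assoc, e3,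
        zero_add]

theorem main (hU : ∀ n, (S x n).Nonempty)
    (hA : ¬ ∃ P N : ℕ, 0 < P ∧ ∀ i ≥ N, x (i + P) = x i) :
    ¬ ∃ L : ℝ, Filter.Tendsto (fun n : ℕ => (R x n : ℝ) / (n : ℝ)) Filter.atTop (nhds L) := by
  rintro ⟨L, hL⟩
  obtain ⟨B, hB⟩ := hL.bddAbove_range
  obtain ⟨K0, hK0⟩ := exists_nat_ge B
  set K := K0 + 1 with hKdef
  have hK1 : 1 ≤ K := by omega
  have hK : ∀ n, 1 ≤ n → R x n ≤ K * n := by
    intro n hn
    have h1 : (R x n : ℝ) / n ≤ B := hB ⟨n, rfl⟩
    have hn' : (0 : ℝ) < n := by exact_mod_cast hn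
    rw [div_le_iff₀ hn'] at h1
    have h2 : (R x n : ℝ) ≤ (K : ℝ) * n := by
      rw [hKdef]; push_cast; nlinarith
    exact_mod_cast h2
  -- the gap function
  let g : ℕ → ℕ := fun n => R x n - n + 1
  have hg : Filter.Tendsto (fun n : ℕ => (g n : ℝ) / (n : ℝ)) Filter.atTop (nhds (L - 1)) := by
    have h0 : Filter.Tendsto (fun n : ℕ => (1 : ℝ) / (n : ℝ)) Filter.atTop (nhds 0) :=
      tendsto_one_div_atTop_nhds_zero_nat
    have h1 := (hL.sub_const 1).add h0
    rw [add_zero] at h1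
    refine h1.congr' ?_
    filter_upwards [Filter.eventually_ge_atTop 1] with n hn
    have hn' : (n : ℝ) ≠ 0 := by exact_mod_cast (show n ≠ 0 by omega)
    simp only [g]
    push_cast [Nat.cast_sub (le_R hU n)]
    field_simp
  have hKpos : (0 : ℝ) < K := by exact_mod_cast hK1
  have hl : 1 / (K : ℝ) ≤ L - 1 := by
    have h0 : Filter.Tendsto (fun n : ℕ => 1 / (K : ℝ) - (1 : ℝ) / (n : ℝ)) Filter.atTop
        (nhds (1 / (K : ℝ) - 0)) := tendsto_one_div_atTop_nhds_zero_nat.const_sub _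
    rw [sub_zero] at h0
    refine le_of_tendsto_of_tendsto h0 hg ?_
    filter_upwards [Filter.eventually_ge_atTop 1] with n hn
    obtain ⟨a, ha⟩ := gap hU hn
    have h1 := minret hU hA hK (m := n) (a := a) (d := g n) (by simp [g]) ha
    have h2 : (n : ℝ) < K * ((g n : ℝ) + 1) := by exact_mod_cast h1
    have hn' : (0 : ℝ) < n := by exact_mod_cast hn
    rw [sub_le_iff_le_add, ← add_div, div_le_div_iff₀ hKpos hn']
    nlinarith
  have hlpos : 0 < L - 1 := lt_of_lt_of_le (by positivity) hl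
  set C := (K * (2 * K + 1) * K * K + 1) ^ 2 with hC
  have hC1 : 1 ≤ C := Nat.one_le_pow _ _ (by omega)
  set η : ℝ := (L - 1) / (4 * C + 1) with hη
  have hηpos : 0 < η := by positivity
  have hηl : η * (4 * C + 1) = L - 1 := by rw [hη]; field_simp
  obtain ⟨N0, hN0⟩ := (Metric.tendsto_atTop.1 hg) η hηpos
  obtain ⟨G, hG1, hG2⟩ := few_values hU hA hK1 hK (C * (N0 + 1)) (Nat.mul_pos hC1 (by omega))
  set w := K * K * (N0 + 1) with hw
  have hNw : K * K * (C * (N0 + 1)) = C * w := by rw [hw]; ring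
  rw [hNw] at hG2
  have hw1 : N0 + 1 ≤ w := Nat.le_mul_of_pos_left _ (Nat.mul_pos hK1 hK1)
  have hCw : w ≤ C * w := Nat.le_mul_of_pos_left _ hC1
  have hstep : ∀ i, i < C → g (C * w + i * w) < g (C * w + (i + 1) * w) := by
    intro i hi
    have h1 := hN0 (C * w + i * w) (by omega)
    have h2 := hN0 (C * w + (i + 1) * w) (by omega)
    rw [Real.dist_eq, abs_lt] at h1 h2
    have hwpos : (0 : ℝ) < w := by exact_mod_cast (show 0 < w by omega)
    have hCpos : (1 : ℝ) ≤ C := by exact_mod_cast hC1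
    have hi' : (i : ℝ) ≤ C := by exact_mod_cast hi.le
    have hi0 : (0 : ℝ) ≤ i := Nat.cast_nonneg _
    have p1 : (0 : ℝ) < ((C * w + i * w : ℕ) : ℝ) := by push_cast; positivity
    have p2 : (0 : ℝ) < ((C * w + (i + 1) * w : ℕ) : ℝ) := by push_cast; positivity
    have a1 : (g (C * w + i * w) : ℝ) < (L - 1 + η) * ((C * w + i * w : ℕ) : ℝ) := by
      rw [← div_lt_iff₀ p1]; linarith [h1.2]
    have a2 : (L - 1 - η) * ((C * w + (i + 1) * w : ℕ) : ℝ) < g (C * w + (i + 1) * w) := by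
      rw [← lt_div_iff₀ p2]; linarith [h2.1]
    have a3 : (L - 1 + η) * ((C * w + i * w : ℕ) : ℝ) ≤
        (L - 1 - η) * ((C * w + (i + 1) * w : ℕ) : ℝ) := by
      push_cast
      rw [← hηl]
      have : 0 ≤ η * w * (C - i) := by
        apply mul_nonneg (by positivity); linarith
      nlinarith
    exact_mod_cast a1.trans_le a3 |>.trans a2
  have hmono : ∀ i j, i < j → j ≤ C → g (C * w + i * w) < g (C * w + j * w) := by
    intro i j hij hj
    induction j, hij using Nat.le_induction with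
    | base => exact hstep i (by omega)
    | succ j _ ih => exact (ih (by omega)).trans (hstep j (by omega))
  have hcard : (Finset.range (C + 1)).card ≤ G.card := by
    refine Finset.card_le_card_of_injOn (fun i => g (C * w + i * w)) ?_ ?_
    · intro i hi
      have hi' : i ≤ C := by simpa [Nat.lt_succ_iff] using hi
      have : i * w ≤ C * w := Nat.mul_le_mul_right _ hi'
      exact hG2 _ (by omega) (by omega)
    · intro i hi j hj he
      have hi' : i ≤ C := by simpa [Nat.lt_succ_iff] using hi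
      have hj' : j ≤ C := by simpa [Nat.lt_succ_iff] using hj
      simp only at he
      by_contra hne
      rcases lt_or_gt_of_ne hne with h | h
      · exact absurd he (hmono i j h hj').ne
      · exact absurd he (hmono j i h hi').ne'
  rw [Finset.card_range] at hcard
  omega

end Pool.Agent.H492Z.RecFun
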